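import Pool.Agent.H75Rib.Fin

/-!
# Ribbon genus and interlacement of the double curves with branch points

A link diagram is given by its signed Gauss code (`Code`), `Classical` says that it is a planar
diagram, and movies go from the link into the 4-ball, so that births of components are the local
maxima of the distance from the centre. `GMovie g n A B` is a movie from `A` to `B` with `g` handles
and `n` births (`Pool.Agent.Results.MP_177a0e_gt.NoBigonsInside`): `GMovie g n [(w, 0)] []` says that
the knot with Gauss code `w` bounds a connected surface of genus `g` in the 4-ball with `n` local
maxima, which is a ribbon surface if `n = 0`. The double curves of the projection of a surface are
named by colours, which are even for the curves having a branch point; `curve k true` and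
`curve k false` are the names of the two curves of the surface lying over the double curve with the
colour `k` (one and the same curve, if `k` is even), `ends p` is the name of the curve ending in the
passage `p`, and `crs t` are the three pairs of curves crossing one another at the preimages of a
triple point. `FMovie Z h D T` (`Pool.Agent.H75Rib.Surf`) are movies of surfaces with arbitrarily many
births and triple points: `T` is the list of the triple points, and `h` is the number of handles, not
counting those cutting off a component which passes only through crossings with colours in `Z`. For
`Z = fun _ => False` all handles are counted and all triple points are listed in `T`.
-/

namespace Pool.Agent.Results.MP_177a0e_gt.BranchedInterlacement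

open Pool.Agent.Y468.SR Pool.Agent.H75Rib
open Pool.Agent.Y874.TP (colour)
open Pool.Agent.R800.TP (ends)
open Pool.Agent.Results.MP_177a0e_gt.NoBigonsInside (GMovie)

/-- Let the knot with Gauss code `K` bound a surface in the 4-ball composed of two parts. The first
part is given by a movie with `g` handles and `n` births from `K` to a link `D`. The second part
consists of disjoint connected surfaces bounded by the components of `D`, with altogether `h` handles
(not counting those cutting off a component which passes only through crossings with colours in `Z`,
where `Z` is a set of double curves not meeting `D`, of which none or at least two pass through each
triple point, and `T` is the list of the triple points of the first kind) and with arbitrarily many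
births and triple points. Let every curve of the preimage of the double curves have at most two ends on `D`; this is
so if different double curves have different colours. Let `2 t` be at least the rank of the
matrix `cross D T` over the field with two elements, whose entries are the numbers, modulo 2, of the
places where two different curves with ends on `D` cross one another at the triple points. The
interlacement matrix `row (passes D)` over the field with two elements tells for any two different
curves with ends on `D` whether the ends of one of them separate the ends of the other one on `D`.
Suppose that its rows are sums of rows of curves with branch points. Then the knot bounds a ribbon
surface of genus `g + n + h + t`.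

The last hypothesis is satisfied for instance if all double curves ending on `D` have branch points,
or if no two curves are interlaced, or if the rows of the curves with branch points span a space of
dimension `2 (h + t)`. If any two curves with ends on `D` cross evenly, `t` may be zero; then
neither births nor triple points of the second part matter, and if `g + h` is the slice genus of the
knot and `n = 0`, then its ribbon genus equals its slice genus. -/
theorem result (K : List Pass) (D : Code) (g n h t : ℕ) (Z : ℕ → Prop) (T : List (ℕ × ℕ × ℕ))
    (h₁ : GMovie g n [(K, 0)] D) (hl : (D.map Prod.snd).Nodup)
    (h₂ : FMovie Z h D T) (hZ : ∀ p ∈ passes D, ¬Z (colour p.crossing))
    (h₃ : ∀ κ, ((passes D).map ends).count κ ≤ 2)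
    (h₄ : Module.finrank (ZMod 2) (Submodule.span (ZMod 2) (Set.range (cross D T))) ≤ 2 * t)
    (h₅ : ∀ κ, row (passes D) κ ∈ Submodule.span (ZMod 2) (row (passes D) '' Ev)) :
    GMovie (g + n + h + t) 0 [(K, 0)] [] := by
  obtain ⟨h', hle, m⟩ := gm_of_ks (h + t) D (ks_of_fmovie hl h₂ hZ h₃ h₄ h₅)
  have m1 := (GMovie.trans h₁ m).trade
  have m2 := gm_pad (g := g + h' + (n + 0)) m1 (h + t - h')
  exact GMovie.cast m2 (by omega) rfl

end Pool.Agent.Results.MP_177a0e_gt.BranchedInterlacement
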