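import Pool.Agent.H75Rib.Rev

/-!
# Ribbon genus and slice genus in the classes of knots joined by even cobordisms

A link diagram is given by its signed Gauss code (`Code`), `Classical` says that it is a planar
diagram, and movies go from the link into the 4-ball, so that births of components are the local
maxima of the distance from the centre. `GMovie g n A B` is a movie from `A` to `B` with `g` handles
and `n` births (`Pool.Agent.Results.MP_177a0e_gt.NoBigonsInside`): `GMovie g n [(w, 0)] []` says that
the knot with Gauss code `w` bounds a connected surface of genus `g` in the 4-ball with `n` local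
maxima, which is a ribbon surface if `n = 0`, and `GMovie h 0 [(K, 0)] [(k, 0)]` is a cobordism of
genus `h` between the knots `K` and `k` without births going from `K` to `k`. `Movie false true` is a
concordance without triple points. `EvenCob` (`Pool.Agent.H75Rib.Cob`) are cobordisms of arbitrary
genus, with births and with arbitrarily many triple points, whose double curves ending on the two
knots cross one another evenly.
-/

namespace Pool.Agent.Results.MP_177a0e_gt.EvenCobordismClasses

open Pool.Agent.Y468.SR Pool.Agent.R800.AN Pool.Agent.R800.IR Pool.Agent.H75Rib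
open Pool.Agent.Results.MP_177a0e_gt.NoBigonsInside (GMovie)

/-- the slice genus of the knot with Gauss code `w` is `g` -/
def SliceGenus (w : List Pass) (g : ℕ) : Prop := IsLeast {g | ∃ n, GMovie g n [(w, 0)] []} g

/-- the ribbon genus of the knot with Gauss code `w` is `g` -/
def RibbonGenus (w : List Pass) (g : ℕ) : Prop := IsLeast {g | GMovie g 0 [(w, 0)] []} g

/-- Let `j` be a diagram of a classical knot which has the least number of crossings among all diagrams
of knots joined to `j` by concordances without triple points, or which is irreducible (no kinks, and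
any two crossings through which the knot passes in succession on the same side have the same sign, for
instance an alternating or a positive diagram without kinks). Let the knot `k` be joined to `j` by a
chain of cobordisms of arbitrary genera, each in any direction, whose double curves ending on the two
knots cross evenly, and let there be a cobordism of genus `h` without births from a knot `K` to `k`.
Then:

1. if `j` bounds a surface of genus `g` with `n` local maxima, then `K` bounds a surface of genus
   `h + g` with `n` local maxima;
2. if `K` bounds a surface of genus `g`, then `j` bounds a surface of genus `h + g`;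
3. the slice genera of `K` and `j` differ by at most `h`, the ribbon genus of `K` is at most the
   ribbon genus of `j` plus `h`, and if the ribbon genus of `j` is equal to its slice genus and the slice
   genus of `K` is greater by `h`, then the ribbon genus of `K` is equal to its slice genus.

For `h = 0`: all these knots `K` have the slice genus of `j`, the ribbon genus is greatest for `j`, and
if it is equal to the slice genus for `j` then it is for all `K`. -/
theorem result (j : List Pass) (hj : Classical [(j, 0)])
    (hm : (∀ i : List Pass, Movie false true [(j, 0)] [(i, 0)] → j.length ≤ i.length) ∨ Irr j)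
    (K k : List Pass) (h : ℕ) (h₁ : GMovie h 0 [(K, 0)] [(k, 0)])
    (h₂ : Relation.EqvGen EvenCob j k) :
    (∀ g n, GMovie g n [(j, 0)] [] → GMovie (h + g) n [(K, 0)] []) ∧
    (∀ g n, GMovie g n [(K, 0)] [] → ∃ n', GMovie (h + g) n' [(j, 0)] []) ∧
    ∀ s r s' r' : ℕ, SliceGenus j s → RibbonGenus j r → SliceGenus K s' → RibbonGenus K r' →
      s ≤ s' + h ∧ s' ≤ s + h ∧ r' ≤ r + h ∧ (r = s → s' = s + h → r' = s') := by
  obtain ⟨m₁, m₂⟩ := movie_of_eqvGen (fun _ _ h => common_of_evenCob h) h₂
  have ck : Classical [(k, 0)] := gmovie_classical' h₁
  -- the cobordism from `k` to `j`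
  have m₃ : Movie false false [(k, 0)] [(j, 0)] := by
    rcases hm with hm | hI
    · obtain ⟨l, l1, l2, l3⟩ := common_of_movie ck hj m₂
      rcases l3 with rfl | l3
      · exact l1
      · have := hm l (movie_births l2)
        omega
    · exact ribbon_to_irr ck hj hI m₂
  have g₃ : GMovie 0 0 [(k, 0)] [(j, 0)] := GMovie.of_movie (movie_mono m₃) (.refl _ hj)
  have p1 : ∀ g n, GMovie g n [(j, 0)] [] → GMovie (h + g) n [(K, 0)] [] := fun g n hg =>
    GMovie.cast (GMovie.trans h₁ (GMovie.trans g₃ hg)) (by omega) (by omega)
  obtain ⟨n₁, b₁⟩ := gmovie_rev_knot h₁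
  obtain ⟨n₂, b₂⟩ := gmovie_rev_knot g₃
  have p2 : ∀ g n, GMovie g n [(K, 0)] [] → ∃ n', GMovie (h + g) n' [(j, 0)] [] := fun g n hg =>
    ⟨n₂ + (n₁ + n), GMovie.cast (GMovie.trans b₂ (GMovie.trans b₁ hg)) (by omega) rfl⟩
  refine ⟨p1, p2, fun s r s' r' hs hr hs' hr' => ?_⟩
  have e1 : s ≤ s' + h := by
    obtain ⟨n, hn⟩ := hs'.1
    obtain ⟨n', hn'⟩ := p2 s' n hn
    have := hs.2 ⟨n', hn'⟩
    omega
  have e2 : s' ≤ s + h := by
    obtain ⟨n, hn⟩ := hs.1
    have := hs'.2 ⟨n, p1 s n hn⟩
    omega
  have e3 : r' ≤ r + h := by
    have := hr'.2 (p1 r 0 hr.1)
    omega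
  refine ⟨e1, e2, e3, fun h1 h2 => ?_⟩
  have := hs'.2 ⟨0, hr'.1⟩
  omega

end Pool.Agent.Results.MP_177a0e_gt.EvenCobordismClasses
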